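import Mathlib

/-!
A symmetric (3,2)-net (from the generalized Hadamard matrix of order 6 over the group of order 3)
whose automorphism group is transitive on ordered pairs of joined points and on ordered pairs of
distinct non-joined points. It has 18 points, so it is not classical.
-/

namespace Pool.Agent.Results.MP_36fbc5_co.HexacodeNet

/-- `(s, r, μ)`-nets, as incidence structures `I : V → B → Prop`: there are `s ^ 2 * μ` points,
distinct blocks have distinct point sets, each block has `s * μ` points, and the blocks are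
partitioned into `r` parallel classes (`c b` being the class of the block `b`) such that each
class partitions the points and blocks from different classes meet in exactly `μ` points. -/
structure IsNet {V B : Type} (I : V → B → Prop) (s r μ : ℕ) : Prop where
  card_points : Nat.card V = s ^ 2 * μ
  blocks_inj : Function.Injective (fun b : B => {x : V | I x b})
  card_block : ∀ b, Nat.card {x : V // I x b} = s * μ
  classes : ∃ c : B → Fin r, (∀ i x, ∃! b, c b = i ∧ I x b) ∧
    ∀ b b', c b ≠ c b' → Nat.card {x : V // I x b ∧ I x b'} = μ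

/-- Symmetric `(s, μ)`-nets: `(s, s * μ, μ)`-nets whose dual is again an `(s, s * μ, μ)`-net. -/
structure IsSymmetricNet {V B : Type} (I : V → B → Prop) (s μ : ℕ) : Prop where
  two_le : 2 ≤ s
  one_le : 1 ≤ μ
  three_le : 3 ≤ s * μ
  net : IsNet I s (s * μ) μ
  dual : IsNet (fun b x => I x b) s (s * μ) μ

/-- Classical symmetric nets: up to a bijection from the points to an affine space `F ^ d`,
`d ≥ 2`, over a finite field `F`, the blocks are the hyperplanes `φ x = c` which are not parallel
to a fixed line with direction `u`, that is, with `φ u ≠ 0`. -/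
def IsClassical {V B : Type} (I : V → B → Prop) : Prop :=
  ∃ (F : Type) (_ : Field F) (_ : Finite F) (d : ℕ) (u : Fin d → F) (e : V ≃ (Fin d → F)),
    2 ≤ d ∧ u ≠ 0 ∧ ∀ S : Set (Fin d → F), (∃ b, S = e '' {x | I x b}) ↔
      ∃ (φ : (Fin d → F) →ₗ[F] F) (c : F), φ u ≠ 0 ∧ S = {x | φ x = c}

/-- `g` is an automorphism: it maps blocks to blocks. -/
def IsAut {V B : Type} (I : V → B → Prop) (g : Equiv.Perm V) : Prop :=
  ∃ h : Equiv.Perm B, ∀ x b, I (g x) (h b) ↔ I x b

/-- Two distinct points are joined if some block contains both. -/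
def Joined {V B : Type} (I : V → B → Prop) (x y : V) : Prop :=
  x ≠ y ∧ ∃ b, I x b ∧ I y b

/-- `G` is transitive on the ordered pairs `(x, y)` with the property `R x y`. -/
def TransOn {V : Type} (G : Subgroup (Equiv.Perm V)) (R : V → V → Prop) : Prop :=
  ∀ x y x' y', R x y → R x' y' → ∃ g ∈ G, g x = x' ∧ g y = y'

/-! ### The net -/

/-- The blocks as bit masks. -/
def masks : List ℕ := [148617, 39186, 74340, 76041, 148050, 38052, 70737, 141474, 49932, 41617,
  83234, 137292, 51297, 70282, 140564, 135969, 42058, 84116]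

/-- The incidence relation. -/
def I (x b : Fin 18) : Prop := (masks.getD b 0).testBit x = true

instance : DecidableRel I := fun _ _ => inferInstanceAs (Decidable (_ = true))

/-- The parallel class. -/
def cls (x : Fin 18) : Fin 6 := ⟨x / 3, by omega⟩

lemma exUnique {α : Type} (p : α → Prop) (h : ∃ b, p b ∧ ∀ b', p b' → b' = b) : ∃! b, p b := h

lemma net : IsNet I 3 6 2 where
  card_points := by simp
  blocks_inj := by
    intro b b' h
    have h' : ∀ x, I x b ↔ I x b' := fun x => by
      have := Set.ext_iff.mp h x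
      simpa using this
    revert b b'
    have : ∀ b b' : Fin 18, (∀ x, I x b ↔ I x b') → b = b' := by decide +kernel
    intro b b' _ h'
    exact this b b' h'
  card_block := by
    intro b
    rw [Nat.card_eq_fintype_card, Fintype.card_subtype]
    revert b
    decide +kernel
  classes := by
    refine ⟨cls, fun i x => exUnique _ ?_, ?_⟩
    · revert i x
      decide +kernel
    intro b b' h
    rw [Nat.card_eq_fintype_card, Fintype.card_subtype]
    revert b b'
    decide +kernel

lemma dualNet : IsNet (fun b x => I x b) 3 6 2 where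
  card_points := by simp
  blocks_inj := by
    intro b b' h
    have h' : ∀ x, I b x ↔ I b' x := fun x => by
      have := Set.ext_iff.mp h x
      simpa using this
    revert b b'
    have : ∀ b b' : Fin 18, (∀ x, I b x ↔ I b' x) → b = b' := by decide +kernel
    intro b b' _ h'
    exact this b b' h'
  card_block := by
    intro b
    rw [Nat.card_eq_fintype_card, Fintype.card_subtype]
    revert b
    decide +kernel
  classes := by
    refine ⟨cls, fun i x => exUnique _ ?_, ?_⟩
    · revert i x
      decide +kernel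
    intro b b' h
    rw [Nat.card_eq_fintype_card, Fintype.card_subtype]
    revert b b'
    decide +kernel

/-- First generator. -/
def ga : Equiv.Perm (Fin 18) where
  toFun := ![12, 13, 14, 8, 6, 7, 2, 0, 1, 16, 17, 15, 3, 4, 5, 10, 11, 9]
  invFun := ![7, 8, 6, 12, 13, 14, 4, 5, 3, 17, 15, 16, 0, 1, 2, 11, 9, 10]
  left_inv := by unfold Function.LeftInverse; decide +kernel
  right_inv := by unfold Function.RightInverse Function.LeftInverse; decide +kernel

/-- The action of the first generator on the blocks. -/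
def ha : Equiv.Perm (Fin 18) where
  toFun := ![15, 16, 17, 1, 2, 0, 11, 9, 10, 6, 7, 8, 5, 3, 4, 13, 14, 12]
  invFun := ![5, 3, 4, 13, 14, 12, 9, 10, 11, 7, 8, 6, 17, 15, 16, 0, 1, 2]
  left_inv := by unfold Function.LeftInverse; decide +kernel
  right_inv := by unfold Function.RightInverse Function.LeftInverse; decide +kernel

/-- Second generator. -/
def gb : Equiv.Perm (Fin 18) where
  toFun := ![14, 13, 12, 16, 15, 17, 6, 8, 7, 3, 5, 4, 0, 2, 1, 9, 11, 10]
  invFun := ![12, 14, 13, 9, 11, 10, 6, 8, 7, 15, 17, 16, 2, 1, 0, 4, 3, 5]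
  left_inv := by unfold Function.LeftInverse; decide +kernel
  right_inv := by unfold Function.RightInverse Function.LeftInverse; decide +kernel

/-- The action of the second generator on the blocks. -/
def hb : Equiv.Perm (Fin 18) where
  toFun := ![10, 9, 11, 17, 16, 15, 12, 14, 13, 8, 7, 6, 4, 3, 5, 0, 2, 1]
  invFun := ![15, 17, 16, 13, 12, 14, 11, 10, 9, 1, 0, 2, 6, 8, 7, 5, 4, 3]
  left_inv := by unfold Function.LeftInverse; decide +kernel
  right_inv := by unfold Function.RightInverse Function.LeftInverse; decide +kernel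

/-- The group of all automorphisms. -/
def autGroup {V B : Type} (J : V → B → Prop) : Subgroup (Equiv.Perm V) where
  carrier := {g | IsAut J g}
  mul_mem' := by
    rintro g g' ⟨h, hh⟩ ⟨h', hh'⟩
    refine ⟨h * h', fun x b => ?_⟩
    rw [Equiv.Perm.mul_apply, Equiv.Perm.mul_apply, hh, hh']
  one_mem' := ⟨1, fun x b => Iff.rfl⟩
  inv_mem' := by
    rintro g ⟨h, hh⟩
    refine ⟨h⁻¹, fun x b => ?_⟩
    have := hh (g⁻¹ x) (h⁻¹ b)
    have e1 : g (g⁻¹ x) = x := Equiv.apply_symm_apply g x
    have e2 : h (h⁻¹ b) = b := Equiv.apply_symm_apply h b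
    rw [e1, e2] at this
    exact this.symm

lemma ga_mem : ga ∈ autGroup I := ⟨ha, by decide +kernel⟩

lemma gb_mem : gb ∈ autGroup I := ⟨hb, by decide +kernel⟩

/-- The code of an ordered pair. -/
def code (x y : Fin 18) : ℕ := 18 * x.1 + y.1

/-- The action of the generator number `k` on points. -/
def act (k : ℕ) (x : Fin 18) : Fin 18 := if k = 0 then ga x else gb x

/-- Decoding. -/
def fs (c : ℕ) : Fin 18 := ⟨c / 18 % 18, by omega⟩
/-- Decoding. -/
def sn (c : ℕ) : Fin 18 := ⟨c % 18, by omega⟩

/-- Membership of a code in the list of the codes reached. -/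
def mem (c c0 : ℕ) : List (ℕ × ℕ × ℕ) → Bool
  | [] => c == c0
  | t :: l => (c == t.1) || mem c c0 l

/-- The checker for a breadth-first search tree with root `c0`. -/
def check (c0 : ℕ) : List (ℕ × ℕ × ℕ) → Bool
  | [] => true
  | t :: l => mem t.2.2 c0 l && (fs t.1 == act t.2.1 (fs t.2.2)) &&
      (sn t.1 == act t.2.1 (sn t.2.2)) && check c0 l

lemma act_mem (k : ℕ) : ∃ g ∈ autGroup I, ∀ x, g x = act k x := by
  by_cases h : k = 0
  · exact ⟨ga, ga_mem, fun x => by simp [act, h]⟩
  · exact ⟨gb, gb_mem, fun x => by simp [act, h]⟩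

lemma reach_of_check (c0 : ℕ) : ∀ l : List (ℕ × ℕ × ℕ), check c0 l = true → ∀ c,
    mem c c0 l = true → ∃ g ∈ autGroup I, g (fs c0) = fs c ∧ g (sn c0) = sn c
  | [], _, c, hc => by
      have : c = c0 := by simpa [mem] using hc
      subst this
      exact ⟨1, one_mem _, rfl, rfl⟩
  | t :: l, ht, c, hc => by
      simp only [check, Bool.and_eq_true, beq_iff_eq] at ht
      obtain ⟨⟨⟨h1, h2⟩, h3⟩, h4⟩ := ht
      simp only [mem, Bool.or_eq_true, beq_iff_eq] at hc
      rcases hc with hc | hc
      · subst hc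
        obtain ⟨g, hg, hg1, hg2⟩ := reach_of_check c0 l h4 _ h1
        obtain ⟨g', hg', hg''⟩ := act_mem t.2.1
        refine ⟨g' * g, mul_mem hg' hg, ?_, ?_⟩
        · rw [Equiv.Perm.mul_apply, hg1, hg'', h2]
        · rw [Equiv.Perm.mul_apply, hg2, hg'', h3]
      · exact reach_of_check c0 l h4 c hc

lemma fs_code (x y : Fin 18) : fs (code x y) = x := by
  apply Fin.ext
  have := x.2
  have := y.2
  simp only [fs, code]
  omega

lemma sn_code (x y : Fin 18) : sn (code x y) = y := by
  apply Fin.ext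
  have := x.2
  have := y.2
  simp only [sn, code]
  omega

lemma trans_of_check (R : Fin 18 → Fin 18 → Prop) (c0 : ℕ) (l : List (ℕ × ℕ × ℕ))
    (h1 : check c0 l = true) (h2 : ∀ x y, R x y → mem (code x y) c0 l = true) :
    TransOn (autGroup I) R := by
  intro x y x' y' hR hR'
  obtain ⟨g, hg, hg1, hg2⟩ := reach_of_check c0 l h1 _ (h2 x y hR)
  obtain ⟨g', hg', hg1', hg2'⟩ := reach_of_check c0 l h1 _ (h2 x' y' hR')
  rw [fs_code] at hg1 hg1'
  rw [sn_code] at hg2 hg2'
  refine ⟨g' * g⁻¹, mul_mem hg' (inv_mem hg), ?_, ?_⟩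
  · have e1 : g⁻¹ (g (fs c0)) = fs c0 := Equiv.symm_apply_apply g _
    rw [Equiv.Perm.mul_apply, ← hg1, e1, hg1']
  · have e2 : g⁻¹ (g (sn c0)) = sn c0 := Equiv.symm_apply_apply g _
    rw [Equiv.Perm.mul_apply, ← hg2, e2, hg2']

/-- The search tree for the joined pairs. -/
def tree1 : List (ℕ × ℕ × ℕ) :=
  [(180, 0, 277), (318, 1, 92), (203, 0, 302), (197, 1, 311), (169, 0, 311), (277, 1, 80), (292,
  1, 65), (298, 1, 71), (186, 0, 274), (52, 1, 237), (193, 1, 307), (175, 0, 307), (149, 0, 68),
  (269, 0, 46), (315, 1, 105), (211, 0, 289), (136, 1, 161), (278, 0, 201), (92, 0, 258), (280,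
  1, 89), (117, 0, 89), (281, 0, 214), (302, 0, 164), (312, 0, 184), (79, 0, 239), (311, 1,
  100), (143, 0, 100), (255, 0, 48), (271, 1, 86), (28, 0, 159), (80, 1, 205), (65, 1, 178),
  (96, 0, 256), (9, 1, 231), (215, 1, 293), (112, 1, 119), (54, 0, 223), (24, 0, 148), (177, 0,
  317), (5, 1, 226), (71, 1, 167), (220, 1, 47), (274, 1, 83), (123, 0, 83), (218, 0, 6), (237,
  0, 30), (307, 1, 104), (131, 0, 104), (68, 1, 162), (300, 0, 162), (106, 1, 183), (213, 0,
  299), (46, 1, 251), (81, 0, 251), (232, 1, 39), (105, 0, 263), (198, 0, 295), (194, 1, 306),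
  (174, 0, 306), (289, 0, 170), (161, 0, 64), (201, 1, 297), (272, 0, 204), (15, 0, 137), (258,
  0, 40), (89, 0, 244), (88, 0, 243), (214, 1, 291), (206, 0, 291), (164, 1, 283), (184, 0,
  283), (13, 1, 217), (154, 0, 69), (239, 0, 32), (27, 1, 267), (100, 0, 267), (48, 1, 236),
  (86, 0, 236), (159, 1, 130), (205, 1, 296), (199, 0, 296), (140, 1, 144), (178, 1, 273), (33,
  0, 155), (256, 1, 11), (231, 0, 11), (49, 1, 235), (85, 0, 235), (293, 0, 176), (90, 1, 192),
  (119, 1, 124), (223, 1, 44), (148, 0, 67), (188, 1, 313), (317, 0, 196), (226, 1, 53), (261,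
  0, 53), (181, 1, 320), (167, 0, 320), (127, 1, 158), (47, 1, 250), (83, 0, 250), (6, 1, 222),
  (56, 0, 222), (30, 1, 254), (104, 0, 254), (162, 1, 282), (183, 0, 282), (109, 1, 122), (41,
  0, 122), (299, 1, 70), (251, 1, 23), (135, 0, 107), (108, 1, 120), (39, 0, 120), (263, 1, 16),
  (227, 0, 16), (295, 1, 62), (145, 0, 62), (98, 1, 187), (306, 0, 187), (170, 0, 309), (64, 1,
  179), (297, 0, 179), (204, 1, 294), (137, 1, 160), (259, 1, 8), (40, 1, 245), (244, 1, 35),
  (243, 0, 35), (314, 1, 97), (291, 1, 63), (252, 0, 43), (283, 1, 73), (121, 0, 73), (217, 1,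
  50), (69, 1, 166), (138, 1, 146), (32, 0, 146), (267, 1, 4), (236, 1, 31), (308, 1, 103),
  (130, 0, 103), (296, 1, 61), (144, 0, 61), (72, 1, 210), (273, 0, 210), (155, 1, 142), (11, 0,
  142), (241, 1, 26), (235, 0, 26), (176, 1, 270), (192, 0, 270), (124, 1, 111), (44, 0, 111),
  (67, 1, 163), (313, 0, 185), (165, 1, 279), (196, 0, 279), (113, 1, 118), (53, 0, 118), (102,
  1, 182), (320, 0, 182), (158, 1, 126), (12, 0, 126), (250, 1, 21), (222, 1, 42), (254, 0, 42),
  (282, 1, 74), (122, 0, 74), (70, 0, 225), (23, 1, 262), (107, 0, 262), (120, 1, 110), (16, 1,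
  219), (62, 0, 219), (187, 0, 275), (309, 1, 99), (179, 0, 316), (294, 1, 60), (160, 1, 129),
  (8, 0, 129), (245, 0, 34), (35, 1, 257), (97, 0, 257), (63, 0, 233), (43, 1, 242), (73, 0,
  242), (50, 1, 234), (166, 0, 319), (146, 1, 139), (4, 0, 139), (31, 1, 253), (103, 0, 253),
  (17, 1, 221), (61, 0, 221), (212, 1, 288), (210, 0, 288), (142, 1, 147), (26, 0, 147), (270,
  1, 84), (111, 0, 84), (163, 1, 284), (185, 0, 284), (279, 1, 87), (118, 0, 87), (182, 0, 276),
  (126, 1, 156), (21, 0, 156), (42, 1, 240), (74, 0, 240), (225, 1, 51), (262, 0, 51), (110, 0,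
  78), (219, 1, 45), (275, 1, 82), (125, 0, 82), (99, 1, 195), (316, 0, 195), (60, 1, 168),
  (290, 0, 168), (129, 1, 153), (34, 0, 153), (257, 1, 10), (233, 0, 10), (242, 1, 25), (234, 0,
  25), (319, 1, 91), (139, 0, 91), (253, 1, 14), (221, 0, 14), (288, 1, 66), (147, 0, 66), (84,
  1, 200), (284, 0, 200), (87, 1, 202), (276, 0, 202), (156, 1, 128), (240, 0, 22), (51, 1,
  238), (78, 0, 238), (45, 1, 249), (82, 0, 249), (195, 1, 310), (168, 0, 310), (153, 1, 141),
  (10, 0, 141), (25, 1, 260), (91, 0, 260), (14, 1, 216), (66, 0, 216), (200, 1, 301), (202, 0,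
  301), (128, 1, 157), (22, 0, 157), (238, 1, 29), (249, 0, 29), (310, 1, 101), (141, 0, 101),
  (260, 1, 7), (216, 0, 7), (301, 1, 55), (157, 0, 55), (29, 1, 268), (101, 0, 268), (7, 1,
  224), (55, 0, 224), (268, 1, 3), (224, 0, 3)]

/-- The search tree for the non-joined pairs. -/
def tree2 : List (ℕ × ℕ × ℕ) :=
  [(173, 1, 286), (191, 0, 286), (116, 0, 75), (115, 0, 77), (322, 1, 93), (134, 0, 93), (305,
  1, 59), (151, 0, 59), (286, 0, 207), (287, 0, 208), (36, 1, 246), (75, 0, 246), (37, 1, 248),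
  (77, 0, 248), (189, 1, 321), (172, 0, 321), (18, 1, 264), (93, 0, 264), (59, 0, 230), (207, 1,
  303), (208, 0, 303), (246, 1, 20), (248, 0, 20), (321, 1, 94), (132, 0, 94), (264, 1, 2),
  (230, 0, 2), (303, 1, 58), (150, 0, 58), (20, 1, 265), (94, 0, 265), (2, 1, 229), (58, 0,
  229), (265, 1, 1), (229, 0, 1)]

lemma joined_dec (x y : Fin 18) : Joined I x y ↔ cls x ≠ cls y := by
  have h : ∀ x y : Fin 18, (x ≠ y ∧ ∃ b, I x b ∧ I y b) ↔ cls x ≠ cls y := by decide +kernel
  exact h x y

lemma trans1 : TransOn (autGroup I) (Joined I) := by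
  apply trans_of_check _ 3 tree1 (by decide +kernel)
  intro x y h
  rw [joined_dec] at h
  revert x y
  decide +kernel

lemma trans2 : TransOn (autGroup I) (fun x y => x ≠ y ∧ ¬ Joined I x y) := by
  apply trans_of_check _ 1 tree2 (by decide +kernel)
  intro x y h
  rw [joined_dec] at h
  revert x y
  decide +kernel

lemma not_classical : ¬ IsClassical I := by
  rintro ⟨F, _, _, d, u, e, hd, -, -⟩
  have h1 := Nat.card_congr e
  rw [Nat.card_fun] at h1
  simp only [Nat.card_fin] at h1
  have h2 : Nat.card F ≤ 18 := by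
    rw [h1]
    calc Nat.card F = Nat.card F ^ 1 := (pow_one _).symm
      _ ≤ Nat.card F ^ d := Nat.pow_le_pow_right Nat.card_pos (by omega)
  have h3 : 2 ≤ Nat.card F := Finite.one_lt_card
  have h4 : d ≤ 4 := by
    by_contra hcon
    have : 2 ^ 5 ≤ Nat.card F ^ d := (Nat.pow_le_pow_left h3 5).trans
      (Nat.pow_le_pow_right (by omega) (by omega))
    omega
  generalize Nat.card F = q at *
  interval_cases q <;> interval_cases d <;> omega

/-- **A non-classical symmetric net with a group transitive on both kinds of pairs.** -/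
theorem result : ∃ (V B : Type) (_ : Finite V) (_ : Finite B) (J : V → B → Prop) (s μ : ℕ),
    IsSymmetricNet J s μ ∧ ¬ IsClassical J ∧
    ∃ G : Subgroup (Equiv.Perm V), (∀ g ∈ G, IsAut J g) ∧ TransOn G (Joined J) ∧
      TransOn G (fun x y => x ≠ y ∧ ¬ Joined J x y) :=
  ⟨Fin 18, Fin 18, inferInstance, inferInstance, I, 3, 2,
    ⟨by norm_num, by norm_num, by norm_num, net, dualNet⟩, not_classical,
    autGroup I, fun _ hg => hg, trans1, trans2⟩

end Pool.Agent.Results.MP_36fbc5_co.HexacodeNet
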